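import Pool.Agent.helper91.RB.Spec2

/-!
# Row TYP of project rb (MP_24e2e7_nt): primes in a quadratic extension of number fields
-/

set_option autoImplicit false

namespace Pool.Agent.RB

open NumberField IsDedekindDomain Module
open scoped nonZeroDivisors Real Classical Pointwise

section

variable {k K : Type} [Field k] [NumberField k] [Field K] [NumberField K] [Algebra k K]

/-- the set of primes above `q` -/
def TYP_S (K : Type) [Field K] [NumberField K] [Algebra k K] (q : HOS k) : Set (HOS K) :=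
  {R : HOS K | R.under (𝓞 k) = q}

theorem TYP_liesOver {q : HOS k} {R : HOS K} (hR : R.under (𝓞 k) = q) :
    R.asIdeal.LiesOver q.asIdeal := by
  constructor
  rw [← hR]
  rfl

theorem TYP_ncard (q : HOS k) :
    (TYP_S K q).ncard = (q.asIdeal.primesOver (𝓞 K)).ncard := by
  refine Set.ncard_congr (fun R _ => R.asIdeal) ?_ ?_ ?_
  · intro R hR
    exact ⟨R.isPrime, TYP_liesOver hR⟩
  · intro R R' _ _ h
    exact HeightOneSpectrum.ext h
  · rintro P ⟨hP1, hP2⟩
    have hne : P ≠ ⊥ := by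
      rintro rfl
      have h1 := hP2.over
      rw [Ideal.under_bot] at h1
      exact q.ne_bot h1
    refine ⟨⟨P, hP1, hne⟩, ?_, rfl⟩
    exact HeightOneSpectrum.ext hP2.over.symm

theorem TYP_act_mem (c : K ≃ₐ[k] K) {q : HOS k} {R : HOS K} (hR : R ∈ TYP_S K q) :
    act (c : K ≃+* K) R ∈ TYP_S K q := by
  have h1 : R.under (𝓞 k) = q := hR
  change (act (c : K ≃+* K) R).under (𝓞 k) = q
  rw [← h1]
  refine HeightOneSpectrum.ext (Ideal.ext fun x => ?_)
  change (RingOfIntegers.mapRingEquiv (c : K ≃+* K)).symm (algebraMap (𝓞 k) (𝓞 K) x) ∈ R.asIdeal ↔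
    algebraMap (𝓞 k) (𝓞 K) x ∈ R.asIdeal
  have h2 : (RingOfIntegers.mapRingEquiv (c : K ≃+* K)).symm (algebraMap (𝓞 k) (𝓞 K) x) =
      algebraMap (𝓞 k) (𝓞 K) x := by
    apply RingOfIntegers.ext
    change c.symm (algebraMap k K (x : k)) = algebraMap k K (x : k)
    exact c.symm.commutes _
  rw [h2]

theorem TYP_act_smul (c : K ≃ₐ[k] K) (R : HOS K) :
    (act (c : K ≃+* K) R).asIdeal = c • R.asIdeal := by
  refine Ideal.ext fun x => ?_
  rw [Ideal.mem_pointwise_smul_iff_inv_smul_mem]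
  change (RingOfIntegers.mapRingEquiv (c : K ≃+* K)).symm x ∈ R.asIdeal ↔ _
  have h2 : (RingOfIntegers.mapRingEquiv (c : K ≃+* K)).symm x = c⁻¹ • x := by
    apply RingOfIntegers.ext
    rfl
  rw [h2]

end

theorem TYP : TYP_stmt := by
  intro k K _ _ _ _ _ _ c hc q
  have hS : {R : HOS K | R.under (𝓞 k) = q} = TYP_S K q := rfl
  have hq0 : q.asIdeal ≠ ⊥ := q.ne_bot
  have hqp : q.asIdeal.IsPrime := q.isPrime
  have hqm : q.asIdeal.IsMaximal := q.isPrime.isMaximal hq0
  -- the group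
  have hG : Nat.card (K ≃ₐ[k] K) = 2 := by
    rw [IsGalois.card_aut_eq_finrank, Algebra.IsQuadraticExtension.finrank_eq_two k K]
  have hG2 : ∀ σ : K ≃ₐ[k] K, σ ≠ 1 → σ = c := by
    intro σ hσ
    obtain ⟨y, _, hy2⟩ := (Nat.card_eq_two_iff' (1 : K ≃ₐ[k] K)).1 hG
    rw [hy2 σ hσ, hy2 c hc]
  -- fundamental identity
  have hfund := Ideal.ncard_primesOver_mul_ramificationIdxIn_mul_inertiaDegIn q.asIdeal (𝓞 K)
    (K ≃ₐ[k] K)
  rw [hG, ← TYP_ncard] at hfund
  set e := q.asIdeal.ramificationIdxIn (𝓞 K) with he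
  set f := q.asIdeal.inertiaDegIn (𝓞 K) with hf
  -- local data of a prime
  have hnm : ∀ R ∈ TYP_S K q, nm R = nm q ^ f := by
    intro R hR
    have := TYP_liesOver (show R.under (𝓞 k) = q from hR)
    have : R.asIdeal.IsPrime := R.isPrime
    have : R.asIdeal.IsMaximal := R.isPrime.isMaximal R.ne_bot
    unfold nm
    rw [Ideal.absNorm_eq_pow_inertiaDeg'_of_liesOver R.asIdeal q.asIdeal q.isPrime q.ne_bot,
      Ideal.inertiaDeg'_eq_inertiaDeg, hf,
      Ideal.inertiaDegIn_eq_inertiaDeg q.asIdeal R.asIdeal (K ≃ₐ[k] K)]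
  have hord : ∀ R ∈ TYP_S K q, ∀ x : k, ord R (algebraMap k K x) = e * ord q x := by
    intro R hR x
    have := TYP_liesOver (show R.under (𝓞 k) = q from hR)
    have : R.asIdeal.IsPrime := R.isPrime
    unfold ord
    rw [← HeightOneSpectrum.valuation_liesOver K q R x, WithZero.log_pow,
      Ideal.ramificationIdx'_eq_ramificationIdx q.asIdeal R.asIdeal q.ne_bot, he,
      Ideal.ramificationIdxIn_eq_ramificationIdx q.asIdeal R.asIdeal (K ≃ₐ[k] K)]
    rw [nsmul_eq_mul]
    ring
  have hNq : nm q ≠ nm q ^ 2 := by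
    have h0 : nm q ≠ 0 := by
      unfold nm
      rw [Ne, Ideal.absNorm_eq_zero_iff]
      exact hq0
    have h1 : nm q ≠ 1 := by
      unfold nm
      rw [Ne, Ideal.absNorm_eq_one_iff]
      exact hqp.ne_top
    intro h
    rw [sq] at h
    exact h1 (Nat.eq_of_mul_eq_mul_left (Nat.pos_of_ne_zero h0) (by rw [← h, mul_one]))
  rw [hS]
  have hty : ty K q = if (TYP_S K q).ncard = 2 then 1
      else if ∃ P : HOS K, P.under (𝓞 k) = q ∧ nm P = nm q ^ 2 then -1 else 0 := rfl
  have hn0 : (TYP_S K q).ncard ∣ 2 := ⟨_, hfund.symm⟩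
  rcases (Nat.dvd_prime Nat.prime_two).1 hn0 with hn | hn
  · -- one prime above `q`
    rw [hn, one_mul] at hfund
    obtain ⟨P, hP⟩ := Set.ncard_eq_one.1 hn
    have hPS : P ∈ TYP_S K q := by rw [hP]; exact Set.mem_singleton _
    have hact : act (c : K ≃+* K) P = P := by
      have h := TYP_act_mem c hPS
      rw [hP] at h
      exact h
    have he0 : e ∣ 2 := ⟨_, hfund.symm⟩
    rcases (Nat.dvd_prime Nat.prime_two).1 he0 with he1 | he2
    · -- inert
      have hf2 : f = 2 := by rw [he1, one_mul] at hfund; exact hfund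
      have hnP := hnm P hPS
      rw [hf2] at hnP
      refine Or.inr (Or.inl ⟨?_, P, hP, hnP, hact, ?_⟩)
      · rw [hty, if_neg (by omega), if_pos ⟨P, hPS, hnP⟩]
      · intro x
        rw [hord P hPS x, he1, Nat.cast_one, one_mul]
    · -- ramified
      have hf1 : f = 1 := by rw [he2] at hfund; omega
      have hnP := hnm P hPS
      rw [hf1, pow_one] at hnP
      refine Or.inr (Or.inr ⟨?_, P, hP, hnP, hact, ?_⟩)
      · rw [hty, if_neg (by omega), if_neg]
        rintro ⟨P', hP'1, hP'2⟩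
        have h3 := hnm P' hP'1
        rw [hf1, pow_one] at h3
        rw [h3] at hP'2
        exact hNq hP'2
      · intro x
        rw [hord P hPS x, he2]
        norm_num
  · -- split
    have hef : e * f = 1 := by rw [hn] at hfund; omega
    have he1 : e = 1 := Nat.eq_one_of_mul_eq_one_right hef
    have hf1 : f = 1 := Nat.eq_one_of_mul_eq_one_left hef
    obtain ⟨P, P', hne, hPP⟩ := Set.ncard_eq_two.1 hn
    have hPS : P ∈ TYP_S K q := by rw [hPP]; exact Set.mem_insert _ _
    have hPS' : P' ∈ TYP_S K q := by rw [hPP]; exact Set.mem_insert_of_mem _ (Set.mem_singleton _)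
    have hL := TYP_liesOver (show P.under (𝓞 k) = q from hPS)
    have hL' := TYP_liesOver (show P'.under (𝓞 k) = q from hPS')
    have : P.asIdeal.IsPrime := P.isPrime
    have : P'.asIdeal.IsPrime := P'.isPrime
    have hswap : ∀ R R' : HOS K, R ∈ TYP_S K q → R' ∈ TYP_S K q → R ≠ R' →
        act (c : K ≃+* K) R = R' := by
      intro R R' hR hR' hRR
      have := TYP_liesOver (show R.under (𝓞 k) = q from hR)
      have := TYP_liesOver (show R'.under (𝓞 k) = q from hR')
      have : R.asIdeal.IsPrime := R.isPrime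
      have : R'.asIdeal.IsPrime := R'.isPrime
      obtain ⟨σ, hσ⟩ := Ideal.exists_smul_eq_of_isGaloisGroup q.asIdeal R.asIdeal R'.asIdeal
        (K ≃ₐ[k] K)
      have hσ1 : σ ≠ 1 := by
        rintro rfl
        rw [one_smul] at hσ
        exact hRR (HeightOneSpectrum.ext hσ)
      have hσc := hG2 σ hσ1
      subst hσc
      refine HeightOneSpectrum.ext ?_
      rw [TYP_act_smul, hσ]
    refine Or.inl ⟨?_, P, P', hne, hPP, ?_, ?_, hswap P P' hPS hPS' hne,
      hswap P' P hPS' hPS (Ne.symm hne), ?_⟩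
    · rw [hty, if_pos hn]
    · rw [hnm P hPS, hf1, pow_one]
    · rw [hnm P' hPS', hf1, pow_one]
    · intro x
      rw [hord P hPS x, hord P' hPS' x, he1, Nat.cast_one, one_mul]
      exact ⟨rfl, rfl⟩

end Pool.Agent.RB
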