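import Pool.Agent.helper91.RB.Spec2
import Pool.Agent.helper68.RB.TYP

/-!
# Row PRD of project rb (MP_24e2e7_nt): the product of the values `L_{S,T}(χ, 0)` over the odd
characters
-/

set_option autoImplicit false

namespace Pool.Agent.RB

open NumberField IsDedekindDomain Module
open scoped nonZeroDivisors Real Classical

/-- a ramified prime is below a prime divisor of the different -/
theorem PRD_ram {k K : Type} [Field k] [NumberField k] [Field K] [NumberField K] [Algebra k K]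
    {q : HOS k} {P : HOS K} (hP : P.under (𝓞 k) = q)
    (hord : ∀ x : k, ord P (algebraMap k K x) = 2 * ord q x) :
    P.asIdeal ∣ differentIdeal (𝓞 k) (𝓞 K) := by
  have hL := TYP_liesOver hP
  have : q.asIdeal.IsPrime := q.isPrime
  have : q.asIdeal.IsMaximal := q.isPrime.isMaximal q.ne_bot
  obtain ⟨x, hx⟩ := q.valuation_exists_uniformizer k
  have h1 : ord q x = 1 := by
    unfold ord
    rw [hx, WithZero.log_exp, neg_neg]
  have h2 : ord P (algebraMap k K x) = q.asIdeal.ramificationIdx' P.asIdeal := by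
    unfold ord
    rw [← HeightOneSpectrum.valuation_liesOver K q P x, WithZero.log_pow, hx, WithZero.log_exp,
      nsmul_eq_mul]
    ring
  have h3 : q.asIdeal.ramificationIdx' P.asIdeal = 2 := by
    have h4 := hord x
    rw [h1, h2] at h4
    exact_mod_cast h4
  have h4 : q.asIdeal.map (algebraMap (𝓞 k) (𝓞 K)) ≤ P.asIdeal ^ 2 := by
    rw [← h3]
    exact Ideal.le_pow_ramificationIdx'
  have h5 := pow_sub_one_dvd_differentIdeal (𝓞 k) (p := q.asIdeal) P.asIdeal 2 q.ne_bot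
    (Ideal.dvd_iff_le.2 h4)
  simpa using h5

/-- only finitely many primes ramify -/
theorem PRD_finite (k K : Type) [Field k] [NumberField k] [Field K] [NumberField K] [Algebra k K]
    [Algebra.IsQuadraticExtension k K] : {q : HOS k | ty K q = 0}.Finite := by
  have hG : Nat.card (K ≃ₐ[k] K) = 2 := by
    rw [IsGalois.card_aut_eq_finrank, Algebra.IsQuadraticExtension.finrank_eq_two k K]
  obtain ⟨c, hc, _⟩ := (Nat.card_eq_two_iff' (1 : K ≃ₐ[k] K)).1 hG
  have hne : differentIdeal (𝓞 k) (𝓞 K) ≠ 0 := differentIdeal_ne_bot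
  have hfin := Ideal.finite_factors hne
  refine (hfin.image fun P : HOS K => P.under (𝓞 k)).subset ?_
  intro q hq
  have hq' : ty K q = 0 := hq
  rcases TYP k K c hc q with ⟨h1, _⟩ | ⟨h1, _⟩ | ⟨_, P, hP1, _, _, hP2⟩
  · rw [h1] at hq'
    exact absurd hq' (by norm_num)
  · rw [h1] at hq'
    exact absurd hq' (by norm_num)
  · have hP : P.under (𝓞 k) = q := by
      have h2 : P ∈ {R : HOS K | R.under (𝓞 k) = q} := by
        rw [hP1]
        exact Set.mem_singleton _
      exact h2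
    exact ⟨P, PRD_ram hP hP2, hP⟩

theorem PRD (hTOW : TOW_stmt) (hZRT : ZRT_stmt) (hVAL : VAL_stmt) : PRD_stmt := by
  intro F k K _ _ _ _ _ _ _ _ _ _ _ _ _ _ _ c hc hck Lf hLf S T Tk hTk hTy
  have hfin := PRD_finite k K
  refine ⟨hfin, ?_⟩
  -- the value at `0`
  have hdiff : DifferentiableOn ℂ (fun s => ∏ χ ∈ odd c, Lf χ s) {1}ᶜ :=
    DifferentiableOn.fun_finsetProd fun χ _ => (hLf χ).1
  have hV := hVAL k K (fun s => ∏ χ ∈ odd c, Lf χ s) hdiff (by
    intro s hs
    rw [hZRT F k K c hc hck s hs]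
    congr 1
    exact Finset.prod_congr rfl fun χ _ => ((hLf χ).2 s hs).symm)
  -- the local factors
  have hT := fun p => hTOW F k K c hc hck p
  choose f g hf hg hn hnm τ hτ hty hprod using hT
  have hS1 : ∀ p, ∏ χ ∈ odd c, (1 - chv χ p) = (((1 - τ p) ^ g p : ℤ) : ℂ) := by
    intro p
    have h1 := hprod p 1
    rw [one_pow, mul_one] at h1
    push_cast
    rw [← h1]
    exact Finset.prod_congr rfl fun χ _ => by rw [mul_one]
  have hT1 : ∏ p ∈ T, ∏ χ ∈ odd c, (1 - chv χ p * (nm p : ℂ)) =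
      ∏ q ∈ Tk, (1 - (ty K q : ℂ) * (nm q : ℂ)) := by
    rw [← Finset.prod_fiberwise_of_maps_to (s := Tk) (t := T) (g := fun q => q.under (𝓞 F))
      (fun q hq => (hTk q).1 hq)]
    refine Finset.prod_congr rfl fun p hp => ?_
    have h1 : ∀ q ∈ Tk.filter (fun q => q.under (𝓞 F) = p),
        (1 - (ty K q : ℂ) * (nm q : ℂ)) = 1 - (τ p : ℂ) * (nm p : ℂ) ^ f p := by
      intro q hq
      have h2 := (Finset.mem_filter.1 hq).2
      rw [hty p q h2, hnm p q h2]
      push_cast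
      ring
    rw [Finset.prod_congr rfl h1, Finset.prod_const, hprod p]
    congr 1
    rw [← hn p, ← Set.ncard_coe_finset]
    congr 1
    ext q
    simp only [Set.mem_ofPred_eq, Finset.coe_filter]
    exact ⟨fun h => ⟨(hTk q).2 (by rw [h]; exact hp), h⟩, fun h => h.2⟩
  have hT2 : ∏ q ∈ Tk, (1 - (ty K q : ℂ) * (nm q : ℂ)) =
      ((∏ q ∈ Tk, (-ty K q) : ℤ) : ℂ) * ∏ q ∈ Tk, ((nm q : ℂ) - (ty K q : ℂ)) := by
    push_cast
    rw [← Finset.prod_mul_distrib]
    refine Finset.prod_congr rfl fun q hq => ?_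
    have h1 : ty K q = 1 ∨ ty K q = -1 := by
      have h2 := hty (q.under (𝓞 F)) q rfl
      rcases hτ (q.under (𝓞 F)) with h3 | h3 | h3
      · exact Or.inl (h2.trans h3)
      · exact Or.inr (h2.trans h3)
      · exact absurd (h2.trans h3) (hTy q hq)
    rcases h1 with h1 | h1 <;> rw [h1] <;> push_cast <;> ring
  -- the power of two
  have hE : (2 : ℤ) ∣ (if S = ∅ then 2 else 1) * 2 ^ {q : HOS k | ty K q = 0}.ncard *
      ∏ p ∈ S, (1 - τ p) ^ g p := by
    by_cases hS : S = ∅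
    · rw [if_pos hS, mul_assoc]
      exact dvd_mul_right _ _
    · obtain ⟨p, hp⟩ := Finset.nonempty_iff_ne_empty.2 hS
      have hgp : g p ≠ 0 := (hg p).ne'
      rcases hτ p with h3 | h3 | h3
      · have h4 : ∏ p ∈ S, (1 - τ p) ^ g p = 0 :=
          Finset.prod_eq_zero hp (by rw [h3, sub_self, zero_pow hgp])
        rw [h4, mul_zero]
        exact dvd_zero _
      · have h4 : (2 : ℤ) ∣ ∏ p ∈ S, (1 - τ p) ^ g p := by
          refine dvd_trans ?_ (Finset.dvd_prod_of_mem _ hp)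
          rw [h3]
          exact dvd_trans (by norm_num) (dvd_pow_self _ hgp)
        exact h4.mul_left _
      · have h4 : {q : HOS k | q.under (𝓞 F) = p}.Nonempty := by
          apply Set.nonempty_of_ncard_ne_zero
          rw [hn p]
          exact hgp
        obtain ⟨q, hq⟩ := h4
        have h5 : ty K q = 0 := (hty p q hq).trans h3
        have h6 : {q : HOS k | ty K q = 0}.ncard ≠ 0 :=
          Set.ncard_ne_zero_of_mem (a := q) h5 hfin
        have h7 : (2 : ℤ) ∣ 2 ^ {q : HOS k | ty K q = 0}.ncard := dvd_pow_self _ h6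
        exact (h7.mul_left _).mul_right _
  obtain ⟨z, hz⟩ := hE
  refine ⟨z * ∏ q ∈ Tk, (-ty K q), ?_⟩
  have hz' : (if S = ∅ then 2 else 1 : ℂ) * 2 ^ {q : HOS k | ty K q = 0}.ncard *
      ((∏ p ∈ S, (1 - τ p) ^ g p : ℤ) : ℂ) = 2 * (z : ℂ) := by
    have h1 : (((if S = ∅ then 2 else 1) * 2 ^ {q : HOS k | ty K q = 0}.ncard *
      ∏ p ∈ S, (1 - τ p) ^ g p : ℤ) : ℂ) = ((2 * z : ℤ) : ℂ) := by rw [hz]
    by_cases hS : S = ∅
    · rw [if_pos hS] at h1 ⊢
      push_cast at h1 ⊢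
      exact h1
    · rw [if_neg hS] at h1 ⊢
      push_cast at h1 ⊢
      exact h1
  have hL : ∏ χ ∈ odd c, LST Lf S T χ = (∏ χ ∈ odd c, Lf χ 0) *
      ((∏ p ∈ S, (1 - τ p) ^ g p : ℤ) : ℂ) *
      (((∏ q ∈ Tk, (-ty K q) : ℤ) : ℂ) * ∏ q ∈ Tk, ((nm q : ℂ) - (ty K q : ℂ))) := by
    unfold LST
    rw [Finset.prod_mul_distrib, Finset.prod_mul_distrib,
      Finset.prod_comm (s := odd c) (t := S), Finset.prod_comm (s := odd c) (t := T), hT1, hT2,
      Finset.prod_congr rfl fun p _ => hS1 p]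
    push_cast
    ring
  rw [hL]
  push_cast
  push_cast at hz'
  linear_combination (∏ χ ∈ odd c, Lf χ 0) * (classNumber k : ℂ) *
    (IsCMField.indexRealUnits K : ℂ) * (Units.torsionOrder K : ℂ) *
    ((∏ q ∈ Tk, (-(ty K q : ℂ))) * ∏ q ∈ Tk, ((nm q : ℂ) - (ty K q : ℂ))) * hz' +
    2 * (z : ℂ) * ((∏ q ∈ Tk, (-(ty K q : ℂ))) * ∏ q ∈ Tk, ((nm q : ℂ) - (ty K q : ℂ))) * hV

end Pool.Agent.RB
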