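import Pool.Agent.helper91.RB.Spec3
import Pool.Agent.helper68.RB.PRD

/-!
# Row AM1 of project rb (MP_24e2e7_nt): invariant divisors modulo the divisors from `k`
-/

set_option autoImplicit false

namespace Pool.Agent.RB

open NumberField IsDedekindDomain Module
open scoped nonZeroDivisors Real Classical

section

variable {k K : Type} [Field k] [NumberField k] [Field K] [NumberField K] [Algebra k K]
    [Algebra.IsQuadraticExtension k K]

/-- the fibres over the primes of `k` -/
theorem AM1_fib (hTYP : TYP_stmt) (c : K ≃+* K) (hc : c ≠ RingEquiv.refl K)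
    (hk : ∀ x : k, c (algebraMap k K x) = algebraMap k K x) (q : HOS k) :
    (∃ P P' : HOS K, {R : HOS K | R.under (𝓞 k) = q} = {P, P'} ∧ act c P = P' ∧ act c P' = P) ∨
    ∃ P : HOS K, {R : HOS K | R.under (𝓞 k) = q} = {P} ∧ act c P = P := by
  have hc' : AlgEquiv.ofRingEquiv (f := c) hk ≠ 1 := by
    intro h
    apply hc
    ext x
    have h1 := congrArg (fun e : K ≃ₐ[k] K => e x) h
    exact h1
  have he : ((AlgEquiv.ofRingEquiv (f := c) hk : K ≃ₐ[k] K) : K ≃+* K) = c := by
    ext x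
    rfl
  rcases hTYP k K (AlgEquiv.ofRingEquiv (f := c) hk) hc' q with
    ⟨_, P, P', _, h1, _, _, h2, h3, _⟩ | ⟨_, P, h1, _, h2, _⟩ | ⟨_, P, h1, _, h2, _⟩
  · rw [he] at h2 h3
    exact Or.inl ⟨P, P', h1, h2, h3⟩
  · rw [he] at h2
    exact Or.inr ⟨P, h1, h2⟩
  · rw [he] at h2
    exact Or.inr ⟨P, h1, h2⟩

theorem AM1_const (hTYP : TYP_stmt) (c : K ≃+* K) (hc : c ≠ RingEquiv.refl K)
    (hk : ∀ x : k, c (algebraMap k K x) = algebraMap k K x) {D : Dv K} (hD : D ∈ Inv c)
    {P P' : HOS K} (h : P.under (𝓞 k) = P'.under (𝓞 k)) : D P = D P' := by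
  have hD' : ∀ P, D (act c P) = D P := hD
  have hP : P ∈ {R : HOS K | R.under (𝓞 k) = P'.under (𝓞 k)} := h
  have hP' : P' ∈ {R : HOS K | R.under (𝓞 k) = P'.under (𝓞 k)} := rfl
  rcases AM1_fib hTYP c hc hk (P'.under (𝓞 k)) with ⟨A, B, h1, h2, h3⟩ | ⟨A, h1, _⟩
  · have h4 : D B = D A := by rw [← h2]; exact hD' A
    rw [h1] at hP hP'
    rcases hP with rfl | rfl <;> rcases hP' with rfl | rfl <;> simp [h4]
  · rw [h1] at hP hP'
    rw [Set.mem_singleton_iff.1 hP, Set.mem_singleton_iff.1 hP']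

theorem AM1_ex (hTYP : TYP_stmt) (c : K ≃+* K) (hc : c ≠ RingEquiv.refl K)
    (hk : ∀ x : k, c (algebraMap k K x) = algebraMap k K x) (q : HOS k) :
    (∃ P : HOS K, P.under (𝓞 k) = q) ∧ {R : HOS K | R.under (𝓞 k) = q}.Finite := by
  rcases AM1_fib hTYP c hc hk q with ⟨A, B, h1, _, _⟩ | ⟨A, h1, _⟩
  · refine ⟨⟨A, ?_⟩, ?_⟩
    · have : A ∈ {R : HOS K | R.under (𝓞 k) = q} := by rw [h1]; exact Set.mem_insert _ _
      exact this
    · rw [h1]
      exact (Set.finite_singleton _).insert _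
  · refine ⟨⟨A, ?_⟩, ?_⟩
    · have : A ∈ {R : HOS K | R.under (𝓞 k) = q} := by rw [h1]; exact Set.mem_singleton _
      exact this
    · rw [h1]
      exact Set.finite_singleton _

/-- the parities at the ramified primes -/
noncomputable def AM1_phi (c : K ≃+* K) (pr : HOS k → HOS K) :
    Inv c →+ ({q : HOS k // ty K q = 0} → ZMod 2) where
  toFun D q := ((D : Dv K) (pr q) : ZMod 2)
  map_zero' := by
    funext q
    simp
  map_add' := by
    intro D E
    funext q
    simp

end

theorem AM1 (_hORD : ORD_stmt) (hTYP : TYP_stmt) : AM1_stmt := by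
  intro k K _ _ _ _ _ _ c hc hk
  have hfin := PRD_finite k K
  have hex := AM1_ex hTYP c hc hk
  have hund : ∀ P : HOS K, (act c P).under (𝓞 k) = P.under (𝓞 k) := by
    intro P
    have he : ((AlgEquiv.ofRingEquiv (f := c) hk : K ≃ₐ[k] K) : K ≃+* K) = c := by
      ext x
      rfl
    have h1 := TYP_act_mem (AlgEquiv.ofRingEquiv (f := c) hk) (q := P.under (𝓞 k)) (R := P) rfl
    rw [he] at h1
    exact h1
  have hle : Ik K k ≤ Inv c := by
    rintro D ⟨E, hE⟩ P
    rw [hE, hE, hund]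
  refine ⟨hle, hfin, ?_⟩
  choose pr hpr using fun q => (hex q).1
  have hconst : ∀ D ∈ Inv c, ∀ P : HOS K, D (pr (P.under (𝓞 k))) = D P := fun D hD P =>
    AM1_const hTYP c hc hk hD (hpr _)
  -- the kernel
  have hker : (AM1_phi (k := k) c pr).ker = (Ik K k).addSubgroupOf (Inv c) := by
    ext D
    rw [AddMonoidHom.mem_ker, AddSubgroup.mem_addSubgroupOf]
    constructor
    · intro h
      have h1 : ∀ q : HOS k, ty K q = 0 → (2 : ℤ) ∣ (D : Dv K) (pr q) := by
        intro q hq
        have h2 := congrFun h ⟨q, hq⟩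
        exact (ZMod.intCast_zmod_eq_zero_iff_dvd _ 2).1 h2
      refine ⟨Finsupp.onFinset ((D : Dv K).support.image fun P : HOS K => P.under (𝓞 k))
        (fun q => (D : Dv K) (pr q) / (if ty K q = 0 then 2 else 1)) ?_, ?_⟩
      · intro q hq
        have h2 : (D : Dv K) (pr q) ≠ 0 := by
          intro h3
          apply hq
          rw [h3, Int.zero_ediv]
        exact Finset.mem_image.2 ⟨pr q, Finsupp.mem_support_iff.2 h2, hpr q⟩
      · intro P
        rw [Finsupp.onFinset_apply, hconst D D.2 P]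
        by_cases hq : ty K (P.under (𝓞 k)) = 0
        · have h2 := h1 _ hq
          rw [hconst D D.2 P] at h2
          rw [if_pos hq]
          exact (Int.mul_ediv_cancel' h2).symm
        · rw [if_neg hq, Int.ediv_one, one_mul]
    · rintro ⟨E, hE⟩
      funext q
      change (((D : Dv K) (pr q) : ℤ) : ZMod 2) = 0
      rw [hE (pr q), hpr, if_pos q.2, Int.cast_mul]
      have : ((2 : ℤ) : ZMod 2) = 0 := by decide
      rw [this, zero_mul]
  -- surjectivity
  have hsurj : Function.Surjective (AM1_phi (k := k) c pr) := by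
    intro ε
    have hfin2 : {P : HOS K | ty K (P.under (𝓞 k)) = 0}.Finite :=
      Set.Finite.preimage' (f := fun P : HOS K => P.under (𝓞 k)) hfin fun q _ => (hex q).2
    let D : Dv K := Finsupp.onFinset hfin2.toFinset
      (fun P => if h : ty K (P.under (𝓞 k)) = 0 then ((ε ⟨P.under (𝓞 k), h⟩).val : ℤ) else 0) (by
        intro P hP
        rw [Set.Finite.mem_toFinset]
        by_contra h
        exact hP (dif_neg h))
    have hD0 : ∀ P, D P =
        if h : ty K (P.under (𝓞 k)) = 0 then ((ε ⟨P.under (𝓞 k), h⟩).val : ℤ) else 0 :=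
      fun P => Finsupp.onFinset_apply
    have key : ∀ (q q' : HOS k) (h : q = q') (hq : ty K q = 0) (hq' : ty K q' = 0),
        ε ⟨q, hq⟩ = ε ⟨q', hq'⟩ := by
      rintro q _ rfl _ _
      rfl
    have hD : D ∈ Inv c := by
      intro P
      rw [hD0, hD0]
      by_cases hq : ty K (P.under (𝓞 k)) = 0
      · have hq' : ty K ((act c P).under (𝓞 k)) = 0 := by rw [hund]; exact hq
        rw [dif_pos hq, dif_pos hq', key _ _ (hund P) hq' hq]
      · have hq' : ¬ ty K ((act c P).under (𝓞 k)) = 0 := by rw [hund]; exact hq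
        rw [dif_neg hq, dif_neg hq']
    refine ⟨⟨D, hD⟩, ?_⟩
    funext q
    change ((D (pr q) : ℤ) : ZMod 2) = ε q
    have hq' : ty K ((pr (q : HOS k)).under (𝓞 k)) = 0 := by rw [hpr]; exact q.2
    rw [hD0, dif_pos hq', key _ _ (hpr _) hq' q.2, Int.cast_natCast, ZMod.natCast_zmod_val]
  have : Finite {q : HOS k // ty K q = 0} := hfin
  rw [AddSubgroup.relIndex, ← hker, AddSubgroup.index_ker, AddMonoidHom.range_eq_top.2 hsurj]
  have h1 : Nat.card (⊤ : AddSubgroup ({q : HOS k // ty K q = 0} → ZMod 2)) =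
      Nat.card ({q : HOS k // ty K q = 0} → ZMod 2) := AddSubgroup.card_top
  rw [h1, Nat.card_fun, Nat.card_zmod]
  rfl

end Pool.Agent.RB
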