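import Pool.Agent.helper91.RB.Spec3

/-!
# Row AMB of project rb (MP_24e2e7_nt): the ambiguous class number formula
-/

set_option autoImplicit false

namespace Pool.Agent.RB

open NumberField IsDedekindDomain Module
open scoped nonZeroDivisors Real Classical

theorem AMB (hDCL : DCL_stmt) (hAM1 : AM1_stmt) (hAM2 : AM2_stmt) (hAM3 : AM3_stmt) :
    AMB_stmt := by
  intro k K _ _ _ _ _ _ _ _ c hc hk
  obtain ⟨h1, _, h2⟩ := hAM1 k K c hc hk
  obtain ⟨h3, h4⟩ := hAM2 k K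
  obtain ⟨h5, h6⟩ := hAM3 k K c hc hk
  have h7 := hDCL K
  have e1 : (Pk K k).relIndex (Ik K k) * (Ik K k).relIndex (Inv c) = (Pk K k).relIndex (Inv c) :=
    AddSubgroup.relIndex_mul_relIndex _ _ _ h3 h1
  have e2 : (Pk K k).relIndex (Pr K ⊓ Inv c) * (Pr K ⊓ Inv c).relIndex (Inv c) =
      (Pk K k).relIndex (Inv c) :=
    AddSubgroup.relIndex_mul_relIndex _ _ _ h5 inf_le_right
  have e3 : (Pr K ⊓ Inv c).relIndex (Inv c) = (Pr K).relIndex (Inv c) :=
    AddSubgroup.inf_relIndex_right _ _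
  have e4 : (Pr K).relIndex (Pr K ⊔ Inv c) = (Pr K).relIndex (Inv c) :=
    AddSubgroup.relIndex_sup_left _ _
  have e5 : (Pr K).relIndex (Pr K ⊔ Inv c) * (Pr K ⊔ Inv c).index = (Pr K).index :=
    AddSubgroup.relIndex_mul_index le_sup_left
  rw [h4, h2] at e1
  rw [e3, ← e4] at e2
  rw [← e1] at e2
  rw [h7] at e5
  calc (Pr K ⊔ Inv c).index * 2 ^ {q : HOS k | ty K q = 0}.ncard * classNumber k *
        IsCMField.indexRealUnits K
      = (Pr K ⊔ Inv c).index * (classNumber k * 2 ^ {q : HOS k | ty K q = 0}.ncard) *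
        IsCMField.indexRealUnits K := by ring
    _ = (Pr K ⊔ Inv c).index * ((Pk K k).relIndex (Pr K ⊓ Inv c) *
        (Pr K).relIndex (Pr K ⊔ Inv c)) * IsCMField.indexRealUnits K := by rw [← e2]
    _ = ((Pk K k).relIndex (Pr K ⊓ Inv c) * IsCMField.indexRealUnits K) *
        ((Pr K).relIndex (Pr K ⊔ Inv c) * (Pr K ⊔ Inv c).index) := by ring
    _ = 2 * classNumber K := by rw [h6, e5]

end Pool.Agent.RB
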