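import Pool.Agent.helper91.RB.Spec3

/-!
# Row DCL of project rb (MP_24e2e7_nt): the index of the principal divisors is the class number
-/

set_option autoImplicit false

namespace Pool.Agent.RB

open NumberField IsDedekindDomain Module
open scoped nonZeroDivisors Real Classical

section

variable {K : Type} [Field K] [NumberField K]

/-- the order is the exponent in the factorisation of the principal fractional ideal -/
theorem DCL_count (P : HOS K) {x : K} (hx : x ≠ 0) :
    FractionalIdeal.count K P (FractionalIdeal.spanSingleton (𝓞 K)⁰ x) = ord P x := by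
  obtain ⟨a, b, hb, rfl⟩ := IsFractionRing.div_surjective (A := 𝓞 K) x
  have hb0 : b ≠ 0 := nonZeroDivisors.ne_zero hb
  have ha0 : a ≠ 0 := by
    rintro rfl
    simp at hx
  have hsp : FractionalIdeal.spanSingleton (𝓞 K)⁰ (algebraMap (𝓞 K) K a / algebraMap (𝓞 K) K b) =
      FractionalIdeal.spanSingleton (𝓞 K)⁰ (algebraMap (𝓞 K) K b)⁻¹ *
        ((Ideal.span {a} : Ideal (𝓞 K)) : FractionalIdeal (𝓞 K)⁰ K) := by
    rw [FractionalIdeal.coeIdeal_span_singleton, FractionalIdeal.spanSingleton_mul_spanSingleton]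
    congr 1
    rw [div_eq_mul_inv, mul_comm]
  have hne : FractionalIdeal.spanSingleton (𝓞 K)⁰
      (algebraMap (𝓞 K) K a / algebraMap (𝓞 K) K b) ≠ 0 :=
    FractionalIdeal.spanSingleton_ne_zero_iff.2 hx
  rw [FractionalIdeal.count_well_defined K P hne hsp]
  unfold ord
  rw [map_div₀, HeightOneSpectrum.valuation_of_algebraMap,
    HeightOneSpectrum.valuation_of_algebraMap, P.intValuation_if_neg ha0,
    P.intValuation_if_neg hb0, ← WithZero.exp_sub, WithZero.log_exp]
  ring

/-- the fractional ideal of a divisor -/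
noncomputable def DCL_F (D : Dv K) : FractionalIdeal (𝓞 K)⁰ K :=
  D.prod fun P n => (P.asIdeal : FractionalIdeal (𝓞 K)⁰ K) ^ n

theorem DCL_F_ne (D : Dv K) : DCL_F D ≠ 0 := by
  unfold DCL_F
  rw [Finsupp.prod, Finset.prod_ne_zero_iff]
  intro P _
  exact zpow_ne_zero _ (FractionalIdeal.coeIdeal_ne_zero.mpr P.ne_bot)

theorem DCL_F_count (D : Dv K) (P : HOS K) : FractionalIdeal.count K P (DCL_F D) = D P :=
  FractionalIdeal.count_finsuppProd K P D

theorem DCL_F_add (D E : Dv K) : DCL_F (D + E) = DCL_F D * DCL_F E := by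
  unfold DCL_F
  refine Finsupp.prod_add_index' (fun P => zpow_zero _) fun P m n => ?_
  exact zpow_add₀ (FractionalIdeal.coeIdeal_ne_zero.mpr P.ne_bot) m n

theorem DCL_ext {I J : FractionalIdeal (𝓞 K)⁰ K} (hI : I ≠ 0) (hJ : J ≠ 0)
    (h : ∀ P : HOS K, FractionalIdeal.count K P I = FractionalIdeal.count K P J) : I = J := by
  rw [← FractionalIdeal.finprod_heightOneSpectrum_factorization' K hI,
    ← FractionalIdeal.finprod_heightOneSpectrum_factorization' K hJ]
  refine finprod_congr fun P => ?_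
  rw [h P]

/-- the class of a divisor -/
noncomputable def DCL_g (K : Type) [Field K] [NumberField K] :
    Dv K →+ Additive (ClassGroup (𝓞 K)) :=
  AddMonoidHom.mk' (fun D => Additive.ofMul (ClassGroup.mk K (Units.mk0 (DCL_F D) (DCL_F_ne D))))
    (by
      intro D E
      have h : Units.mk0 (DCL_F (D + E)) (DCL_F_ne (D + E)) =
          Units.mk0 (DCL_F D) (DCL_F_ne D) * Units.mk0 (DCL_F E) (DCL_F_ne E) := by
        apply Units.ext
        rw [Units.val_mul, Units.val_mk0, Units.val_mk0, Units.val_mk0, DCL_F_add]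
      rw [h, map_mul, ofMul_mul])

theorem DCL_ker : (DCL_g K).ker = Pr K := by
  ext D
  rw [AddMonoidHom.mem_ker]
  have h1 : DCL_g K D = 0 ↔ ClassGroup.mk K (Units.mk0 (DCL_F D) (DCL_F_ne D)) = 1 :=
    Iff.rfl
  rw [h1, ClassGroup.mk_eq_one_iff, Units.val_mk0, FractionalIdeal.isPrincipal_iff]
  constructor
  · rintro ⟨x, hx⟩
    have hx0 : x ≠ 0 := by
      rintro rfl
      rw [FractionalIdeal.spanSingleton_zero] at hx
      exact DCL_F_ne D hx
    refine ⟨x, hx0, fun P => ?_⟩
    rw [← DCL_F_count D P, hx, DCL_count P hx0]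
  · rintro ⟨x, hx0, hx⟩
    refine ⟨x, DCL_ext (DCL_F_ne D) (FractionalIdeal.spanSingleton_ne_zero_iff.2 hx0) fun P => ?_⟩
    rw [DCL_F_count, DCL_count P hx0, hx P]

theorem DCL_surj : Function.Surjective (DCL_g K) := by
  intro C
  have h : ∀ C : ClassGroup (𝓞 K), ∃ D : Dv K, ClassGroup.mk K (Units.mk0 (DCL_F D) (DCL_F_ne D)) = C := by
    intro C
    refine ClassGroup.induction (K := K) (fun J => ?_) C
    have hfin : {P : HOS K | FractionalIdeal.count K P (J : FractionalIdeal (𝓞 K)⁰ K) ≠ 0}.Finite :=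
      Filter.eventually_cofinite.1
        (FractionalIdeal.finite_factors (J : FractionalIdeal (𝓞 K)⁰ K))
    refine ⟨Finsupp.onFinset hfin.toFinset
      (fun P => FractionalIdeal.count K P (J : FractionalIdeal (𝓞 K)⁰ K))
      (fun P hP => hfin.mem_toFinset.2 hP), ?_⟩
    congr 1
    apply Units.ext
    rw [Units.val_mk0]
    refine DCL_ext (DCL_F_ne _) J.ne_zero fun P => ?_
    rw [DCL_F_count, Finsupp.onFinset_apply]
  obtain ⟨D, hD⟩ := h (Additive.toMul C)
  exact ⟨D, hD⟩

end

theorem DCL (_hORD : ORD_stmt) : DCL_stmt := by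
  intro K _ _
  rw [← DCL_ker, AddSubgroup.index_ker, AddMonoidHom.range_eq_top.2 DCL_surj]
  have h1 : Nat.card (⊤ : AddSubgroup (Additive (ClassGroup (𝓞 K)))) =
      Nat.card (Additive (ClassGroup (𝓞 K))) := AddSubgroup.card_top
  rw [h1]
  have h2 : Nat.card (Additive (ClassGroup (𝓞 K))) = Nat.card (ClassGroup (𝓞 K)) :=
    Nat.card_congr Additive.toMul
  rw [h2, classNumber, Nat.card_eq_fintype_card]

end Pool.Agent.RB
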